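import Pool.Agent.T6.H17.PB.ISO
import Pool.Agent.T6.H17.PB.TYP
import Pool.Agent.T6.H17.PB.COM

/-!
# Project PB (`MP_745d3a_ag`): assembly (helper6)
-/

set_option autoImplicit false

open MvPolynomial H960VB H938TB Pool.Agent.W615 Pool.Agent.W467.FO

namespace Pool.Agent.T6.H17.PB

namespace Main6

variable {n : ℕ} {E : Bundle2 n}

theorem lsub_eq_sc (ζ : ℂ) (i : Fin (n + 1)) : lsub (hT n ζ i) = sc n ζ i := by
  apply MvPolynomial.algHom_ext
  intro j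
  rw [lsub_hT_X]
  unfold sc
  rw [aeval_X]

theorem wd_inv {W : Wedge (triv E)} {ζ : ℂ} (S : Sys E W ζ) {D : ℤ} {v w : S0 E D}
    (hv : InV S D v) (hw : InV S D w) (i : Fin (n + 1)) :
    ∃ K : ℕ, (((sc n ζ i).toLinearMap - 1) ^ K) (W.wd v.1 w.1) = 0 := by
  obtain ⟨K, hK⟩ := (S.O i).ge_wd W (κ := S.u i * S.u i) (S.typ i).det (hv i) (hw i)
  refine ⟨K, ?_⟩
  have hu : S.u i * S.u i ≠ 0 := mul_ne_zero (S.typ i).ne (S.typ i).ne
  have e : (hM (hT n ζ i) (S.u i * S.u i) - (S.u i * S.u i) • (1 : Module.End ℂ _)) =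
      (S.u i * S.u i) • ((sc n ζ i).toLinearMap - 1) := by
    unfold hM
    rw [lsub_eq_sc, smul_sub]
  rw [e, smul_pow, LinearMap.smul_apply] at hK
  exact (smul_eq_zero.1 hK).resolve_left (pow_ne_zero _ hu)

end Main6

open Main6 in
/-- the main theorem for commuting lifts -/
theorem main6 (n : ℕ) (hn : 3 ≤ n) (E : Bundle2 n) (hE : ¬ E.Splits) (ζ : ℂ) (M : ℕ)
    (hM : 0 < M) (hζ : IsPrimitiveRoot ζ M) (O : ∀ i : Fin (n + 1), GOp E (hT n ζ i))
    (hc : ∀ i j, ∃ c : ℂ, ∀ (d : ℤ) (s : Vec E.a n), Sec E d s →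
      (O i).D ((O j).D s) = c • (O j).D ((O i).D s)) :
    ∃ (E' : Bundle2 n) (k : ℤ), ¬ E'.Splits ∧ IsoTwist E (powPull M hM E') k := by
  classical
  have hζ0 : ζ ≠ 0 := hζ.ne_zero (by omega)
  obtain ⟨W⟩ := exists_wedge (by omega : 1 ≤ n) (triv E)
  choose u hu using fun i => typ n hn E hE W ζ hζ0 i (O i)
  let S : Sys E W ζ := ⟨O, u, hu, com n hn E W ζ hζ0 O u hu hc⟩
  obtain ⟨D, N, v, hv, hgen⟩ := gen n hn E hE W ζ M hM hζ S
  obtain ⟨x1, -, x3, -, -⟩ := exp n M ζ hM hζ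
  have h1 : ∀ a b, ∃ P, expand M P = W.wd (v a).1 (v b).1 := fun a b =>
    x1 _ fun i => wd_inv S (hv a) (hv b) i
  choose P hP using h1
  have h2 : ∀ a b, HomZ (expand M (P a b)) (D + D + W.κ.1) := by
    intro a b
    rw [hP]
    exact wd_homZ W (v a).2 (v b).2
  obtain ⟨g, hg⟩ : ∃ g : ℤ, ∀ a b, HomZ (P a b) g := by
    by_cases hall : ∀ a b, P a b = 0
    · exact ⟨0, fun a b => Or.inl (hall a b)⟩
    · push Not at hall
      obtain ⟨a0, b0, h0⟩ := hall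
      obtain ⟨g, hg, hg'⟩ := x3 _ _ h0 (h2 a0 b0)
      refine ⟨g, fun a b => ?_⟩
      by_cases hab : P a b = 0
      · exact Or.inl hab
      · obtain ⟨e, he, he'⟩ := x3 _ _ hab (h2 a b)
        have h3 : (M : ℤ) * e = M * g := by rw [← he, ← hg]
        have h4 : e = g := mul_left_cancel₀ (by exact_mod_cast hM.ne') h3
        rwa [h4] at he'
  exact iso n hn E hE W M hM D N (fun t => (v t).1) (fun t => (v t).2) hgen P g hP hg

end Pool.Agent.T6.H17.PB
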